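import Pool.Agent.Lib_helper71.Normal.NonNormal
import Pool.Agent.Lib_helper71.Normal.NormalPart
import Pool.Agent.Lib_helper71.Normal.Approx

/-!
For every `n ≥ 1` and every real `τ > 1`, each of the sets of real numbers with Mahler exponent
(respectively Koksma exponent) equal to `τ (n + 1) - 1` contains a normal number and a number that
is simply normal in no base.

Proof: Cantor type constructions near algebraic numbers of degree at most `n` (and, for the
non-normal numbers, near rational numbers with denominator a power of the base). The upper bound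
for Mahler's exponent of the limit point comes from the quantitative nondivergence theorem of
Kleinbock and Margulis, which is proved here, applied to very short intervals next to the
algebraic number, where the required lower bounds for the sizes of all rational subspaces come
from Minkowski's theorem at a nearby point and an interpolation inequality for polynomials.
Normality comes from second moment estimates for exponential sums.
-/

set_option autoImplicit false

namespace Pool.Agent.Results.MP_f09850_nt.MahlerKoksmaNormal

open Pool.Agent.Lib_helper71.Normal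

/-- The set of real numbers with Mahler exponent `τ (n + 1) - 1`. -/
def mahlerSet (n : ℕ) (τ : ℝ) : Set ℝ :=
  {ξ : ℝ | mahlerExponent n ξ = ((τ * (n + 1) - 1 : ℝ) : EReal)}

/-- The set of real numbers with Koksma exponent `τ (n + 1) - 1`. -/
def koksmaSet (n : ℕ) (τ : ℝ) : Set ℝ :=
  {ξ : ℝ | koksmaExponent n ξ = ((τ * (n + 1) - 1 : ℝ) : EReal)}

/-- Each of the two sets contains a normal number and a number that is simply normal in no
base. -/
theorem result : ∀ n : ℕ, 1 ≤ n → ∀ τ : ℝ, 1 < τ →
    (∃ ξ ∈ mahlerSet n τ, IsNormal ξ) ∧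
    (∃ ξ ∈ mahlerSet n τ, ∀ b : ℕ, 2 ≤ b → ¬ SimplyNormal b ξ) ∧
    (∃ ξ ∈ koksmaSet n τ, IsNormal ξ) ∧
    (∃ ξ ∈ koksmaSet n τ, ∀ b : ℕ, 2 ≤ b → ¬ SimplyNormal b ξ) := by
  intro n hn τ hτ
  obtain ⟨ξ, h1, h2, h3⟩ := exists_normal n hn (approximant n hn) τ hτ
  obtain ⟨ζ, k1, k2, k3⟩ := exists_nonnormal n hn (approximant n hn) τ hτ
  exact ⟨⟨ξ, h1, h3⟩, ⟨ζ, k1, k3⟩, ⟨ξ, h2, h3⟩, ⟨ζ, k2, k3⟩⟩

end Pool.Agent.Results.MP_f09850_nt.MahlerKoksmaNormal
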